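import Pool.Agent.H37.CPX.Targets

/-!
# Cutting planes of any depth, row FIN: the statement about cutting planes
-/

set_option autoImplicit false

namespace Pool.Agent.H81.CPX

open Finset Pool.Agent.H37.CPX
open Pool.Agent.H1.LP (Clause)
open Pool.Agent.H37.CP (Refutable)

theorem pf_FIN (hS : S_SYS) (hD : S_DAG) (hC : S_CPU) (hF : S_FRU) (hP : S_PARM) : S_FIN := by
  refine ⟨1000, by norm_num, fun κ hκ => ?_⟩
  obtain ⟨k, hk⟩ : ∃ k, k = κ / 2 - 6 := ⟨_, rfl⟩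
  have hk1 : 150 ≤ k := by omega
  have hk2 : 2 * (k + 6) ≤ κ := by omega
  have hk3 : κ ≤ 2 * k + 13 := by omega
  obtain ⟨E, B0, hE, hs⟩ := hS k
  obtain ⟨C, n0, hn0⟩ := hP k hk1 E B0 hE
  refine ⟨C, max n0 1, fun n hn => ?_⟩
  have hnn : n0 ≤ n := le_trans (le_max_left _ _) hn
  have hn1 : 1 ≤ n := le_trans (le_max_right _ _) hn
  obtain ⟨N, P, z, lam, hB, hNum, h3, hM, hz⟩ := hn0 n hnn
  obtain ⟨s, hun⟩ := hs N hB
  have hq1 : 1 ≤ P ^ 16 := Nat.one_le_pow _ _ (lt_of_lt_of_le (by norm_num) hNum.hP)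
  obtain ⟨M, phi, side, f, g, hM', hcard, hunsat, hV⟩ :=
    hF N (2 * N) k (N / E) (P ^ 16) n s hq1 h3 hun
  refine ⟨M, phi, hM'.trans hM, fun i => (hcard i).trans hk2, hunsat, fun s' d hR => ?_⟩
  obtain ⟨u, w, dp, hdag, v0, hv0⟩ := hC (PY N (P ^ 16)) (PX N (P ^ 16)) n M (2 * N) phi side f g
    (fun j x y => s.v j (pt x y) = -1) hV s' d hR
  have hcX : ((P : ℝ) ^ 16) ^ N ≤ 2 * (univ : Finset (PX N (P ^ 16))).card := by
    have e : (univ : Finset (PX N (P ^ 16))).card = (P ^ 16) ^ N := by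
      rw [Finset.card_univ, Fintype.card_fun, Fintype.card_fin, Fintype.card_fin]
    rw [e, Nat.cast_pow, Nat.cast_pow]
    have h0 : (0 : ℝ) ≤ ((P : ℝ) ^ 16) ^ N := by positivity
    linarith
  have key := hD N (2 * N) k (N / E) P z lam s (Fin s') u w dp univ v0 hNum hdag
    (fun x _ y => hv0 x y) hcX
  rw [Fintype.card_fin] at key
  have hkr : (150 : ℝ) ≤ k := by exact_mod_cast hk1
  have hκr : (κ : ℝ) ≤ 2 * k + 13 := by exact_mod_cast hk3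
  have hκ0 : (0 : ℝ) < κ := by
    have : 0 < κ := by omega
    exact_mod_cast this
  have hexp : 1 - ((1000 : ℕ) : ℝ) / κ ≤ 1 - 150 / (k : ℝ) := by
    have h1 : (150 : ℝ) / k ≤ ((1000 : ℕ) : ℝ) / κ := by
      rw [div_le_div_iff₀ (by linarith) hκ0]
      push_cast
      nlinarith
    linarith
  have hn1' : (1 : ℝ) ≤ n := by exact_mod_cast hn1
  have h1 : (n : ℝ) ^ (1 - ((1000 : ℕ) : ℝ) / κ) ≤ (n : ℝ) ^ (1 - 150 / (k : ℝ)) :=
    Real.rpow_le_rpow_of_exponent_le hn1' hexp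
  have h2 : (2 : ℝ) ^ ((n : ℝ) ^ (1 - ((1000 : ℕ) : ℝ) / κ)) ≤
      (2 : ℝ) ^ ((n : ℝ) ^ (1 - 150 / (k : ℝ))) :=
    Real.rpow_le_rpow_of_exponent_le (by norm_num) h1
  linarith

end Pool.Agent.H81.CPX
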